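import Pool.Agent.BSE.Stmts4
import Pool.Agent.Helper17_BSE.SCH

/-!
# SR2: the tuple version of SCH
-/

set_option autoImplicit false

open MeasureTheory Matrix Finset
open scoped ComplexConjugate

namespace Pool.Agent.BSE.H52

open Pool.Agent.Helper64_FR Pool.Agent.BSE Pool.Agent.BSE.H17

theorem sr2 (sr1 : SR1Stmt) : SR2Stmt := by
  intro n k B u v c
  obtain ⟨σ, hs⟩ : ∃ σ : Fin k → ℂ, ∀ s, σ s = ∑ i ∈ Bᶜ, (c s i : ℂ) * conj (v s i) * u i :=
    ⟨_, fun s => rfl⟩
  obtain ⟨q, hq⟩ : ∃ q : Fin k → ℂ, ∀ s, q s = ∑ i ∈ B, conj (v s i) * u i := ⟨_, fun s => rfl⟩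
  have hL : ∀ (A : UB B) (s : Fin k), bil u (v s)
      ((((A : UU n)⁻¹ : UU n) : Matrix (Fin n) (Fin n) ℂ) * dg (c s) *
      ((A : UU n) : Matrix (Fin n) (Fin n) ℂ)) =
      (∑ i ∈ B, (c s i : ℂ) * conj ((((A : UU n) : Matrix (Fin n) (Fin n) ℂ) *ᵥ v s) i) *
        (((A : UU n) : Matrix (Fin n) (Fin n) ℂ) *ᵥ u) i) + σ s := by
    intro A s
    rw [bil_conj, split (B := B), hs]
    congr 1
    refine Finset.sum_congr rfl fun i hi => ?_
    rw [Finset.mem_compl] at hi
    rw [mv_off A (v s) hi, mv_off A u hi]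
  have hR : ∀ (s : Fin k) (D : Fin n → ℝ), bil u (v s) (dg D) =
      ∑ i, (D i : ℂ) * (conj (v s i) * u i) := by
    intro s D
    unfold bil dg
    refine Finset.sum_congr rfl fun i _ => ?_
    rw [Finset.sum_eq_single i]
    · rw [Matrix.diagonal_apply_eq]
      ring
    · intro j _ hj
      rw [Matrix.diagonal_apply_ne _ (Ne.symm hj)]
      ring
    · intro h
      exact absurd (Finset.mem_univ i) h
  rcases B.eq_empty_or_nonempty with hB | hB
  · subst hB
    have h1 : ∀ (A : UB (∅ : Finset (Fin n))) (s : Fin k), bil u (v s)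
        ((((A : UU n)⁻¹ : UU n) : Matrix (Fin n) (Fin n) ℂ) * dg (c s) *
        ((A : UU n) : Matrix (Fin n) (Fin n) ℂ)) =
        bil u (v s) (dg (TB ∅ (A : UU n) (c s))) := by
      intro A s
      rw [hL, hR, hs]
      simp only [Finset.sum_empty, Finset.compl_empty, zero_add]
      refine Finset.sum_congr rfl fun i _ => ?_
      unfold TB
      rw [dif_neg (Finset.notMem_empty i)]
      ring
    simp_rw [h1]
  · obtain ⟨b, hbd⟩ : ∃ b, b = B.min' hB := ⟨_, rfl⟩
    have hb : b ∈ B := by
      rw [hbd]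
      exact Finset.min'_mem _ _
    have hR2 : ∀ (A : UB B) (s : Fin k), bil u (v s) (dg (TB B (A : UU n) (c s))) =
        ((∑ j ∈ B, ‖((A : UU n) : Matrix (Fin n) (Fin n) ℂ) j b‖ ^ 2 * c s j : ℝ) : ℂ) * q s +
          σ s := by
      intro A s
      rw [hR, split (B := B), hs, hq, Finset.mul_sum]
      congr 1
      · refine Finset.sum_congr rfl fun i hi => ?_
        unfold TB
        rw [dif_pos hi, hbd]
      · refine Finset.sum_congr rfl fun i hi => ?_
        rw [Finset.mem_compl] at hi
        unfold TB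
        rw [dif_neg hi]
        ring
    have cX : ∀ s : Fin k, Continuous fun A : UB B => ∑ i ∈ B, (c s i : ℂ) *
        conj ((((A : UU n) : Matrix (Fin n) (Fin n) ℂ) *ᵥ v s) i) *
        (((A : UU n) : Matrix (Fin n) (Fin n) ℂ) *ᵥ u) i := fun s =>
      continuous_finset_sum _ fun i _ => (continuous_const.mul
        (Complex.continuous_conj.comp (cont_mv B (v s) i))).mul (cont_mv B u i)
    have cV : ∀ s : Fin k, Continuous fun A : UB B =>
        ((∑ j ∈ B, ‖((A : UU n) : Matrix (Fin n) (Fin n) ℂ) j b‖ ^ 2 * c s j : ℝ) : ℂ) := fun s =>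
      Complex.continuous_ofReal.comp (continuous_finset_sum _ fun j _ =>
        ((cont_entry B j b).norm.pow 2).mul continuous_const)
    simp_rw [hL, hR2, Finset.prod_add]
    rw [integral_finset_sum, integral_finset_sum]
    · refine Finset.sum_congr rfl fun S _ => ?_
      have e1 : ∏ s ∈ S, q s = ∏ s ∈ S, ∑ i ∈ B, conj (v s i) * u i :=
        Finset.prod_congr rfl fun s _ => hq s
      rw [integral_mul_const, integral_mul_const, sr1 n k B b hb S u v c, ← e1]
      simp_rw [Finset.prod_mul_distrib]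
      rw [integral_mul_const]
      ring
    · intro S _
      exact int_cont B ((continuous_finset_prod _ fun s _ =>
        (cV s).mul continuous_const).mul continuous_const)
    · intro S _
      exact int_cont B ((continuous_finset_prod _ fun s _ => cX s).mul continuous_const)

end Pool.Agent.BSE.H52
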